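import Pool.Agent.H37.CV.Targets

/-!
# Module BG of cmv_modules
-/

set_option autoImplicit false

namespace Pool.Agent.H97.CV

open NumberField NumberField.InfinitePlace NumberField.mixedEmbedding
open Pool.Agent.H37.CV

/-- BG -/
theorem pf_BG : T_BG := by
  classical
  intro K _ _
  obtain ⟨C0, hC0⟩ := isBounded_iff_forall_norm_le.mp (fundamentalCone.isBounded_normLeOne K)
  refine ⟨max C0 1, le_max_right _ _, fun s hs => ?_⟩
  set P : ℝ := ∏ w, s w ^ w.mult with hP
  have hP0 : 0 < P := Finset.prod_pos fun w _ => pow_pos (hs w) _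
  have hn : (Module.finrank ℚ K : ℝ) ≠ 0 := by
    exact_mod_cast (Module.finrank_pos (R := ℚ) (M := K)).ne'
  set r : ℝ := P ^ (1 / (Module.finrank ℚ K : ℝ)) with hr
  have hr0 : 0 < r := Real.rpow_pos_of_pos hP0 _
  have hrn : r ^ Module.finrank ℚ K = P := by
    rw [hr, ← Real.rpow_natCast, ← Real.rpow_mul hP0.le, one_div, inv_mul_cancel₀ hn, Real.rpow_one]
  let x : mixedSpace K := (fun w => s w.1, fun w => ((s w.1 : ℝ) : ℂ))
  have hx : ∀ w, normAtPlace w x = s w := by
    intro w
    by_cases hw : IsReal w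
    · rw [normAtPlace_apply_of_isReal hw]
      change ‖s w‖ = s w
      exact Real.norm_of_nonneg (hs w).le
    · rw [normAtPlace_apply_of_isComplex (not_isReal_iff_isComplex.1 hw)]
      change ‖((s w : ℝ) : ℂ)‖ = s w
      rw [Complex.norm_real]
      exact Real.norm_of_nonneg (hs w).le
  have hxn : mixedEmbedding.norm x = P := by
    rw [mixedEmbedding.norm_apply, hP]
    exact Finset.prod_congr rfl fun w _ => by rw [hx]
  let y : mixedSpace K := r⁻¹ • x
  have hyn : mixedEmbedding.norm y = 1 := by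
    change mixedEmbedding.norm (r⁻¹ • x) = 1
    rw [mixedEmbedding.norm_smul, hxn, abs_of_pos (inv_pos.2 hr0), inv_pow, hrn,
      inv_mul_cancel₀ hP0.ne']
  obtain ⟨u, hu⟩ := fundamentalCone.exists_unit_smul_mem (x := y) (by rw [hyn]; exact one_ne_zero)
  refine ⟨u, fun v => ?_⟩
  have h1 : u • y ∈ fundamentalCone.normLeOne K := by
    rw [fundamentalCone.mem_normLeOne]
    exact ⟨hu, by rw [norm_unit_smul, hyn]⟩
  have h2 := hC0 _ h1
  rw [norm_eq_sup'_normAtPlace] at h2
  have h3 : normAtPlace v (u • y) ≤ C0 :=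
    (Finset.le_sup' (fun w => normAtPlace w (u • y)) (Finset.mem_univ v)).trans h2
  rw [unitSMul_smul, map_mul, normAtPlace_apply] at h3
  change v (u : K) * normAtPlace v (r⁻¹ • x) ≤ C0 at h3
  rw [normAtPlace_smul, hx, abs_of_pos (inv_pos.2 hr0)] at h3
  have h4 : v (u : K) * s v = (v (u : K) * (r⁻¹ * s v)) * r := by
    field_simp
  rw [h4]
  exact mul_le_mul_of_nonneg_right (h3.trans (le_max_left _ _)) hr0.le

end Pool.Agent.H97.CV
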