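import Pool.Agent.H37.CV.Targets

/-!
# Module PG of cmv_modules
-/

set_option autoImplicit false

namespace Pool.Agent.H97.CV

open NumberField NumberField.InfinitePlace NumberField.mixedEmbedding
open Pool.Agent.H37.CV

section

variable (K : Type) [Field K] [NumberField K]

/-- real coordinates of an element -/
noncomputable def crd (x : K) : index K → ℝ := Sum.elim
  (fun w => (mixedEmbedding K x).1 w)
  (fun w => if w.2 = 0 then ((mixedEmbedding K x).2 w.1).re else ((mixedEmbedding K x).2 w.1).im)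

theorem crd_le (x : K) (T : ℝ) (h : ∀ v : InfinitePlace K, v x ≤ T) (i : index K) :
    |crd K x i| ≤ T := by
  rcases i with w | ⟨w, j⟩
  · have h1 := h w.1
    rw [← normAtPlace_apply, normAtPlace_apply_of_isReal w.2] at h1
    exact h1
  · have h1 := h w.1
    rw [← normAtPlace_apply, normAtPlace_apply_of_isComplex w.2] at h1
    change |if j = 0 then ((mixedEmbedding K x).2 w).re else ((mixedEmbedding K x).2 w).im| ≤ T
    split_ifs
    · exact (Complex.abs_re_le_norm _).trans h1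
    · exact (Complex.abs_im_le_norm _).trans h1

theorem crd_sub (x y : K) (i : index K) : crd K (x - y) i = crd K x i - crd K y i := by
  rcases i with w | ⟨w, j⟩
  · change (mixedEmbedding K (x - y)).1 w = _
    rw [map_sub]
    rfl
  · change (if j = 0 then ((mixedEmbedding K (x - y)).2 w).re
      else ((mixedEmbedding K (x - y)).2 w).im) =
      (if j = 0 then ((mixedEmbedding K x).2 w).re else ((mixedEmbedding K x).2 w).im) -
      (if j = 0 then ((mixedEmbedding K y).2 w).re else ((mixedEmbedding K y).2 w).im)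
    rw [map_sub]
    split_ifs <;> rfl

theorem place_le (x : K) (δ : ℝ) (hδ : 0 ≤ δ) (h : ∀ i, |crd K x i| ≤ δ) (v : InfinitePlace K) :
    v x ≤ 3 / 2 * δ := by
  rw [← normAtPlace_apply]
  by_cases hv : IsReal v
  · rw [normAtPlace_apply_of_isReal hv]
    have h1 := h (Sum.inl ⟨v, hv⟩)
    change ‖(mixedEmbedding K x).1 ⟨v, hv⟩‖ ≤ δ at h1
    linarith
  · have hv' := not_isReal_iff_isComplex.1 hv
    rw [normAtPlace_apply_of_isComplex hv']
    have h1 := h (Sum.inr (⟨v, hv'⟩, 0))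
    have h2 := h (Sum.inr (⟨v, hv'⟩, 1))
    change |((mixedEmbedding K x).2 ⟨v, hv'⟩).re| ≤ δ at h1
    change |((mixedEmbedding K x).2 ⟨v, hv'⟩).im| ≤ δ at h2
    set z := (mixedEmbedding K x).2 ⟨v, hv'⟩ with hz
    rw [← sq_le_sq₀ (norm_nonneg _) (by positivity), ← Complex.normSq_eq_norm_sq,
      Complex.normSq_apply]
    have h3 : z.re * z.re ≤ δ ^ 2 := by
      rw [← sq, ← sq_abs]
      exact pow_le_pow_left₀ (abs_nonneg _) h1 2
    have h4 : z.im * z.im ≤ δ ^ 2 := by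
      rw [← sq, ← sq_abs]
      exact pow_le_pow_left₀ (abs_nonneg _) h2 2
    nlinarith [sq_nonneg δ]

open Classical in
theorem card_index : Fintype.card (index K) = Module.finrank ℚ K := by
  rw [← mixedEmbedding.finrank K, Module.finrank_eq_card_basis (stdBasis K)]

end

theorem card_Icc_le (a : ℝ) (ha : 0 ≤ a) : ((Finset.Icc ⌊-a⌋ ⌊a⌋).card : ℝ) ≤ 2 * a + 2 := by
  rw [Int.card_Icc]
  have h1 : (⌊a⌋ : ℝ) ≤ a := Int.floor_le a
  have h2 : -a < (⌊-a⌋ : ℝ) + 1 := Int.lt_floor_add_one (-a)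
  have h3 : ⌊-a⌋ ≤ ⌊a⌋ := Int.floor_le_floor (by linarith)
  have h4 : (((⌊a⌋ + 1 - ⌊-a⌋).toNat : ℤ) : ℝ) = ((⌊a⌋ + 1 - ⌊-a⌋ : ℤ) : ℝ) := by
    rw [Int.toNat_of_nonneg (by omega)]
  have h5 : (((⌊a⌋ + 1 - ⌊-a⌋).toNat : ℕ) : ℝ) = (⌊a⌋ : ℝ) + 1 - ⌊-a⌋ := by
    have := h4
    push_cast at this ⊢
    exact this
  rw [h5]
  linarith

/-- PG -/
theorem pf_PG : T_PG := by
  classical
  intro K _ _
  set n := Module.finrank ℚ K with hn
  have hn0 : n ≠ 0 := (Module.finrank_pos (R := ℚ) (M := K)).ne'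
  refine ⟨8 ^ n, one_le_pow₀ (by norm_num), fun X T c hT hc h1 h2 => ?_⟩
  set δ : ℝ := c ^ (1 / (n : ℝ)) / 2 with hδ
  have hr0 : 0 < c ^ (1 / (n : ℝ)) := Real.rpow_pos_of_pos hc _
  have hδ0 : 0 < δ := by positivity
  have hrn : (c ^ (1 / (n : ℝ))) ^ n = c := by
    rw [← Real.rpow_natCast, ← Real.rpow_mul hc.le, one_div, inv_mul_cancel₀ (by exact_mod_cast hn0),
      Real.rpow_one]
  have hinj : Set.InjOn (fun (x : K) (i : index K) => ⌊crd K x i / δ⌋) X := by
    intro x hx y hy hxy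
    by_contra hne
    have h3 : ∀ i, |crd K (x - y) i| ≤ δ := by
      intro i
      have h4 := Int.abs_sub_lt_one_of_floor_eq_floor (congrFun hxy i)
      rw [← sub_div, abs_div, abs_of_pos hδ0, div_lt_one hδ0] at h4
      rw [crd_sub]
      exact h4.le
    have h5 : |((Algebra.norm ℚ (x - y) : ℚ) : ℝ)| ≤ (3 / 2 * δ) ^ n := by
      have h6 := prod_eq_abs_norm (x - y)
      rw [← Rat.cast_abs, ← h6, hn, ← sum_mult_eq, ← Finset.prod_pow_eq_pow_sum]
      exact Finset.prod_le_prod (fun w _ => pow_nonneg (apply_nonneg w _) _) fun w _ =>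
        pow_le_pow_left₀ (apply_nonneg w _) (place_le K _ δ hδ0.le h3 w) _
    have h7 : (3 / 2 * δ) ^ n < c := by
      have h8 : 3 / 2 * δ = 3 / 4 * c ^ (1 / (n : ℝ)) := by
        rw [hδ]
        ring
      rw [h8, mul_pow, hrn]
      have h9 : (3 / 4 : ℝ) ^ n < 1 := pow_lt_one₀ (by norm_num) (by norm_num) hn0
      nlinarith
    exact absurd (h2 x hx y hy hne) (not_le.2 (h5.trans_lt h7))
  have hmaps : Set.MapsTo (fun (x : K) (i : index K) => ⌊crd K x i / δ⌋) X
      (Fintype.piFinset fun _ : index K => Finset.Icc ⌊-(T / δ)⌋ ⌊T / δ⌋ : Finset _) := by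
    intro x hx
    rw [Finset.mem_coe, Fintype.mem_piFinset]
    intro i
    have h3 := abs_le.1 (crd_le K x T (h1 x hx) i)
    rw [Finset.mem_Icc]
    constructor
    · apply Int.floor_le_floor
      rw [← neg_div]
      exact div_le_div_of_nonneg_right h3.1 hδ0.le
    · apply Int.floor_le_floor
      exact div_le_div_of_nonneg_right h3.2 hδ0.le
  have h3 := Finset.card_le_card_of_injOn _ hmaps hinj
  rw [Fintype.card_piFinset, Finset.prod_const, Finset.card_univ, card_index K] at h3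
  have h4 : (X.card : ℝ) ≤ ((Finset.Icc ⌊-(T / δ)⌋ ⌊T / δ⌋).card : ℝ) ^ n := by exact_mod_cast h3
  have hTd : 0 ≤ T / δ := by positivity
  have h5 : ((Finset.Icc ⌊-(T / δ)⌋ ⌊T / δ⌋).card : ℝ) ^ n ≤ (2 * (T / δ) + 2) ^ n :=
    pow_le_pow_left₀ (Nat.cast_nonneg _) (card_Icc_le _ hTd) n
  refine h4.trans (h5.trans ?_)
  set t : ℝ := T / c ^ (1 / (n : ℝ)) with ht
  have ht0 : 0 ≤ t := by positivity
  have h6 : 2 * (T / δ) + 2 = 4 * t + 2 := by
    rw [hδ, ht]
    field_simp
    ring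
  have h7 : T ^ n / c = t ^ n := by
    rw [ht, div_pow, hrn]
  rw [h6, h7]
  rcases le_total t 1 with h | h
  · calc (4 * t + 2) ^ n ≤ 8 ^ n := pow_le_pow_left₀ (by positivity) (by linarith) n
      _ ≤ 8 ^ n * (1 + t ^ n) := by
        have : 0 ≤ t ^ n := by positivity
        have h8 : (0 : ℝ) < 8 ^ n := by positivity
        nlinarith
  · calc (4 * t + 2) ^ n ≤ (8 * t) ^ n := pow_le_pow_left₀ (by positivity) (by linarith) n
      _ = 8 ^ n * t ^ n := mul_pow _ _ _
      _ ≤ 8 ^ n * (1 + t ^ n) := by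
        have h8 : (0 : ℝ) < 8 ^ n := by positivity
        nlinarith

end Pool.Agent.H97.CV
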