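import Pool.Agent.H37.CV.Targets

/-!
# Module SR of cmv_modules
-/

set_option autoImplicit false

namespace Pool.Agent.H97.CV

open NumberField NumberField.InfinitePlace
open Pool.Agent.H37.CV

section

variable {K : Type} [Field K] [NumberField K]

theorem nm_mul (I J : Ideal (𝓞 K)) : nm (I * J) = nm I * nm J := by
  unfold nm
  rw [map_mul]
  push_cast
  rfl

theorem nm_pos {I : Ideal (𝓞 K)} (h : I ≠ ⊥) : 0 < nm I := by
  unfold nm
  have h1 : Ideal.absNorm I ≠ 0 := fun h0 => h (Ideal.absNorm_eq_zero_iff.1 h0)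
  exact_mod_cast Nat.pos_of_ne_zero h1

theorem nm_le_of_le {I J : Ideal (𝓞 K)} (h : J ≤ I) (hJ : J ≠ ⊥) : nm I ≤ nm J := by
  unfold nm
  have h1 := Ideal.absNorm_dvd_absNorm_of_le h
  have h2 : Ideal.absNorm J ≠ 0 := fun h0 => hJ (Ideal.absNorm_eq_zero_iff.1 h0)
  exact_mod_cast Nat.le_of_dvd (Nat.pos_of_ne_zero h2) h1

theorem nm_span (x : 𝓞 K) : nm (Ideal.span {x}) = ∏ v : InfinitePlace K, v (x : K) ^ v.mult := by
  unfold nm
  rw [prod_eq_abs_norm, Ideal.absNorm_span_singleton, ← Algebra.coe_norm_int]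
  rw [Nat.cast_natAbs]
  push_cast
  rfl

theorem nm_qi (q : ℕ) : nm (qi K q) = (q : ℝ) ^ Module.finrank ℚ K := by
  unfold nm qi
  rw [Ideal.absNorm_span_natCast, RingOfIntegers.rank]
  push_cast
  rfl

/-- balanced generators -/
theorem balanced {C : ℝ} (hC : ∀ s : InfinitePlace K → ℝ,
    (∀ v, 0 < s v) → ∃ u : (𝓞 K)ˣ, ∀ v : InfinitePlace K,
      v (u : K) * s v ≤ C * (∏ w, s w ^ w.mult) ^ (1 / (Module.finrank ℚ K : ℝ)))
    (x : 𝓞 K) (hx : x ≠ 0) : ∃ u : (𝓞 K)ˣ, ∀ v : InfinitePlace K,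
      v ((u : 𝓞 K) * x : 𝓞 K) ≤ C * nm (Ideal.span {x}) ^ (1 / (Module.finrank ℚ K : ℝ)) := by
  obtain ⟨u, hu⟩ := hC (fun v => v (x : K)) (fun v => InfinitePlace.pos_iff.2 (by
    exact_mod_cast hx))
  refine ⟨u, fun v => ?_⟩
  rw [nm_span, RingOfIntegers.coe_eq_algebraMap, map_mul, map_mul]
  exact hu v

end

section

variable {K : Type} [Field K] [NumberField K] [IsCMField K]

/-- the complex conjugation -/
noncomputable def sg : 𝓞 K ≃+* 𝓞 K := (IsCMField.ringOfIntegersComplexConj K).toRingEquiv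

theorem sg_coe (x : 𝓞 K) : ((sg x : 𝓞 K) : K) = IsCMField.complexConj K x := rfl

theorem sg_sg (x : 𝓞 K) : sg (sg x) = x := by
  apply RingOfIntegers.ext
  rw [sg_coe, sg_coe, IsCMField.complexConj_apply_apply]

theorem place_sg (v : InfinitePlace K) (x : 𝓞 K) : v ((sg x : 𝓞 K) : K) = v (x : K) := by
  rw [sg_coe, IsCMField.infinitePlace_complexConj]

theorem nm_map_sg (d : Ideal (𝓞 K)) : nm (d.map (sg : 𝓞 K ≃+* 𝓞 K)) = nm d := by
  unfold nm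
  congr 1
  rw [Ideal.absNorm_apply, Ideal.absNorm_apply, Submodule.cardQuot_apply, Submodule.cardQuot_apply]
  exact Nat.card_congr (Ideal.quotientEquiv d (d.map (sg : 𝓞 K ≃+* 𝓞 K)) sg rfl).symm.toEquiv

theorem sg_q (q : ℕ) : sg ((q : ℕ) : 𝓞 K) = ((q : ℕ) : 𝓞 K) := map_natCast sg q

/-- the norm of the sum of an ideal and its conjugate -/
theorem nm_sup (q : ℕ) (hq : q.Prime) (d : Ideal (𝓞 K)) (hd : qi K q ≤ d) :
    nm d ^ 2 ≤ nm (d ⊔ d.map (sg : 𝓞 K ≃+* 𝓞 K)) * (q : ℝ) ^ Module.finrank ℚ K := by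
  have h1 := Ideal.sup_mul_inf d (d.map (sg : 𝓞 K ≃+* 𝓞 K))
  have h2 : qi K q ≤ d ⊓ d.map (sg : 𝓞 K ≃+* 𝓞 K) := by
    refine le_inf hd ?_
    unfold qi at hd ⊢
    rw [Ideal.span_singleton_le_iff_mem] at hd ⊢
    have h3 := Ideal.mem_map_of_mem (sg : 𝓞 K ≃+* 𝓞 K) hd
    rwa [sg_q] at h3
  have hqi : qi K q ≠ ⊥ := by
    unfold qi
    rw [Ne, Ideal.span_singleton_eq_bot]
    exact_mod_cast hq.ne_zero
  have h3 := nm_le_of_le h2 hqi
  rw [nm_qi] at h3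
  calc nm d ^ 2 = nm (d * d.map (sg : 𝓞 K ≃+* 𝓞 K)) := by rw [nm_mul, nm_map_sg, sq]
    _ = nm (d ⊔ d.map (sg : 𝓞 K ≃+* 𝓞 K)) * nm (d ⊓ d.map (sg : 𝓞 K ≃+* 𝓞 K)) := by
      rw [← h1, nm_mul]
    _ ≤ _ := mul_le_mul_of_nonneg_left h3 (by unfold nm; exact Nat.cast_nonneg _)

theorem sup_q_sg (q : ℕ) (a : 𝓞 K) (h : Ideal.span {a} ⊔ qi K q = ⊤) :
    Ideal.span {sg a} ⊔ qi K q = ⊤ := by
  have h1 := congrArg (Ideal.map (sg : 𝓞 K ≃+* 𝓞 K)) h
  rw [Ideal.map_sup, Ideal.map_span, Set.image_singleton, Ideal.map_top] at h1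
  unfold qi at h1 ⊢
  rw [Ideal.map_span, Set.image_singleton] at h1
  have h2 : (sg : 𝓞 K ≃+* 𝓞 K) ((q : ℕ) : 𝓞 K) = ((q : ℕ) : 𝓞 K) := sg_q q
  rw [h2] at h1
  exact h1

theorem sup_q_mul (q : ℕ) (a b : 𝓞 K) (h : Ideal.span {a} ⊔ qi K q = ⊤)
    (h' : Ideal.span {b} ⊔ qi K q = ⊤) : Ideal.span {a * b} ⊔ qi K q = ⊤ := by
  rw [← Ideal.span_singleton_mul_span_singleton]
  rw [← Ideal.isCoprime_iff_sup_eq] at h h' ⊢
  exact h.mul_left h'

end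

section

variable {K : Type} [Field K] [NumberField K]

/-- generators of `g I` and `g J` -/
theorem gens (g I J : Ideal (𝓞 K)) (a' b' α0 : 𝓞 K) (ha0 : a' ≠ 0) (hb0 : b' ≠ 0) (hα0 : α0 ≠ 0)
    (hab : Ideal.span {a'} * I = Ideal.span {b'} * J) (hgI : g * I = Ideal.span {α0}) :
    ∃ β0 : 𝓞 K, β0 ≠ 0 ∧ β0 * b' = a' * α0 ∧ g * J = Ideal.span {β0} := by
  have h1 : Ideal.span {a' * α0} = Ideal.span {b'} * (g * J) := by
    rw [← Ideal.span_singleton_mul_span_singleton, ← hgI, mul_left_comm, hab, mul_left_comm]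
  have h2 : a' * α0 ∈ Ideal.span {b'} := by
    have h3 : a' * α0 ∈ Ideal.span {b'} * (g * J) := by
      rw [← h1]
      exact Ideal.mem_span_singleton_self _
    exact (Ideal.mul_le_left : Ideal.span {b'} * (g * J) ≤ Ideal.span {b'}) h3
  obtain ⟨β0, hβ⟩ := Ideal.mem_span_singleton'.1 h2
  refine ⟨β0, ?_, hβ, ?_⟩
  · rintro rfl
    rw [zero_mul] at hβ
    exact mul_ne_zero ha0 hα0 hβ.symm
  · have h3 : Ideal.span {b'} * (g * J) = Ideal.span {b'} * Ideal.span {β0} := by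
      rw [← h1, ← hβ, Ideal.span_singleton_mul_span_singleton, mul_comm]
    exact (Ideal.span_singleton_mul_right_inj hb0).1 h3

/-- division modulo `d` -/
theorem cong (q : ℕ) (d : Ideal (𝓞 K)) (hd : qi K q ≤ d) (a' b' α β η : 𝓞 K)
    (haq : Ideal.span {a'} ⊔ qi K q = ⊤) (habd : a' - b' ∈ d)
    (hrel : a' * α = η * (b' * β)) : α - η * β ∈ d := by
  have h3 : a' * (α - η * β) ∈ d := by
    have h4 : a' * (α - η * β) = -(η * β * (a' - b')) := by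
      linear_combination hrel
    rw [h4]
    exact d.neg_mem (Ideal.mul_mem_left _ _ habd)
  have h5 : Ideal.span {a'} ⊔ d = ⊤ := by
    rw [eq_top_iff, ← haq]
    exact sup_le_sup_left hd _
  obtain ⟨y, hy, z, hz, hyz⟩ := Submodule.mem_sup.1 (h5.symm ▸ (Submodule.mem_top : (1 : 𝓞 K) ∈ ⊤))
  obtain ⟨t, rfl⟩ := Ideal.mem_span_singleton'.1 hy
  have h6 : α - η * β = t * (a' * (α - η * β)) + z * (α - η * β) := by
    linear_combination -(α - η * β) * hyz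
  rw [h6]
  exact d.add_mem (d.mul_mem_left _ h3) (d.mul_mem_right _ hz)

end

section

variable {K : Type} [Field K] [NumberField K] [IsCMField K]

theorem sg_ne {x : 𝓞 K} (h : x ≠ 0) : sg x ≠ 0 := fun h0 => h ((map_eq_zero_iff sg sg.injective).1 h0)

/-- the size of the determinant -/
theorem size_x (C : ℝ) (hC1 : 1 ≤ C) (α0 β0 α β x ζ : 𝓞 K) (hα0 : α0 ≠ 0) (hβ0 : β0 ≠ 0)
    (hζ : ∀ v : InfinitePlace K, v (ζ : K) = 1)
    (hu : ∀ v : InfinitePlace K, v (α : K) ≤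
      C * nm (Ideal.span {α0}) ^ (1 / (Module.finrank ℚ K : ℝ)))
    (hw : ∀ v : InfinitePlace K, v (β : K) ≤
      C * nm (Ideal.span {β0}) ^ (1 / (Module.finrank ℚ K : ℝ)))
    (hx : x = α * sg β - ζ * (sg α * β)) :
    nm (Ideal.span {x}) ≤ (2 * C ^ 2) ^ Module.finrank ℚ K * (nm (Ideal.span {α0}) *
        nm (Ideal.span {β0})) := by
  have hn0 : Module.finrank ℚ K ≠ 0 := (Module.finrank_pos (R := ℚ) (M := K)).ne'
  have hα0' : 0 < nm (Ideal.span {α0}) := nm_pos (by rwa [Ne, Ideal.span_singleton_eq_bot])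
  have hβ0' : 0 < nm (Ideal.span {β0}) := nm_pos (by rwa [Ne, Ideal.span_singleton_eq_bot])
  obtain ⟨A, hA⟩ : ∃ A, A = nm (Ideal.span {α0}) ^ (1 / (Module.finrank ℚ K : ℝ)) := ⟨_, rfl⟩
  obtain ⟨B, hB⟩ : ∃ B, B = nm (Ideal.span {β0}) ^ (1 / (Module.finrank ℚ K : ℝ)) := ⟨_, rfl⟩
  have hA0 : 0 < A := hA ▸ Real.rpow_pos_of_pos hα0' _
  have hB0 : 0 < B := hB ▸ Real.rpow_pos_of_pos hβ0' _
  have hAn : A ^ Module.finrank ℚ K = nm (Ideal.span {α0}) := by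
    rw [hA, ← Real.rpow_natCast, ← Real.rpow_mul hα0'.le, one_div,
      inv_mul_cancel₀ (by exact_mod_cast hn0), Real.rpow_one]
  have hBn : B ^ Module.finrank ℚ K = nm (Ideal.span {β0}) := by
    rw [hB, ← Real.rpow_natCast, ← Real.rpow_mul hβ0'.le, one_div,
      inv_mul_cancel₀ (by exact_mod_cast hn0), Real.rpow_one]
  rw [← hA] at hu
  rw [← hB] at hw
  have hvx : ∀ v : InfinitePlace K, v (x : K) ≤ 2 * C ^ 2 * (A * B) := by
    intro v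
    have h3 : v (α : K) * v (β : K) ≤ (C * A) * (C * B) :=
      mul_le_mul (hu v) (hw v) (apply_nonneg _ _) (by positivity)
    have h4 : (x : K) = (α : K) * ((sg β : 𝓞 K) : K) -
        (ζ : K) * (((sg α : 𝓞 K) : K) * (β : K)) := by
      rw [hx]
      simp only [RingOfIntegers.coe_eq_algebraMap, map_sub, map_mul]
    have h5 : v (x : K) ≤ v ((α : K) * ((sg β : 𝓞 K) : K)) +
        v ((ζ : K) * (((sg α : 𝓞 K) : K) * (β : K))) := by
      rw [h4, sub_eq_add_neg]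
      refine (v.1.add_le _ _).trans (le_of_eq ?_)
      rw [v.1.map_neg]
      rfl
    rw [map_mul, map_mul, map_mul, place_sg, place_sg, hζ, one_mul] at h5
    calc v (x : K) ≤ v (α : K) * v (β : K) + v (α : K) * v (β : K) := h5
      _ ≤ (C * A) * (C * B) + (C * A) * (C * B) := add_le_add h3 h3
      _ = 2 * C ^ 2 * (A * B) := by ring
  rw [nm_span, ← hAn, ← hBn, ← mul_pow, ← mul_pow, ← sum_mult_eq, ← Finset.prod_pow_eq_pow_sum]
  exact Finset.prod_le_prod (fun v _ => pow_nonneg (apply_nonneg v _) _) fun v _ =>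
    pow_le_pow_left₀ (apply_nonneg v _) (hvx v) _

/-- membership of the determinant -/
theorem mem_x (d : Ideal (𝓞 K)) (α β η ζ x : 𝓞 K) (hζη : ζ * sg η = η)
    (hcong : α - η * β ∈ d) (hx : x = α * sg β - ζ * (sg α * β)) :
    x ∈ d ⊔ d.map (sg : 𝓞 K ≃+* 𝓞 K) := by
  have h3 : x = sg β * (α - η * β) - (ζ * β) * sg (α - η * β) := by
    rw [map_sub, map_mul]
    linear_combination hx - β * sg β * hζη
  rw [h3]
  refine Ideal.sub_mem _ (Ideal.mul_mem_left _ _ ?_) (Ideal.mul_mem_left _ _ ?_)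
  · exact (le_sup_left : d ≤ _) hcong
  · exact (le_sup_right : d.map (sg : 𝓞 K ≃+* 𝓞 K) ≤ _)
      (Ideal.mem_map_of_mem (sg : 𝓞 K ≃+* 𝓞 K) hcong)

/-- the relation is real -/
theorem fix (a' b' α β η ζ : 𝓞 K) (hη : η ≠ 0) (hα : α ≠ 0) (hβ : β ≠ 0) (hζη : ζ * sg η = η)
    (hrel : a' * α = η * (b' * β)) (h3 : α * sg β = ζ * (sg α * β)) :
    a' * sg b' = b' * sg a' := by
  have h4 : sg a' * sg α = sg η * (sg b' * sg β) := by
    rw [← map_mul, hrel, map_mul, map_mul]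
  have h5 : (a' * α) * (sg η * (sg b' * sg β)) = (η * (b' * β)) * (sg a' * sg α) := by
    rw [hrel, h4]
  have h6 : a' * sg b' * (η * (sg α * β)) = b' * sg a' * (η * (sg α * β)) := by
    linear_combination h5 - a' * sg b' * sg η * h3 - a' * sg b' * (sg α * β) * hζη
  exact mul_right_cancel₀ (mul_ne_zero hη (mul_ne_zero (sg_ne hα) hβ)) h6

/-- the root of unity of a unit -/
theorem root (η : (𝓞 K)ˣ) : ∃ ζ : 𝓞 K, (∀ v : InfinitePlace K, v (ζ : K) = 1) ∧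
    ζ * sg (η : 𝓞 K) = (η : 𝓞 K) := by
  refine ⟨((η * (IsCMField.unitsComplexConj K η)⁻¹ : (𝓞 K)ˣ) : 𝓞 K), ?_, ?_⟩
  · exact (Units.mem_torsion K).1 (IsCMField.unitsMulComplexConjInv K η).2
  · have h1 : ((IsCMField.unitsComplexConj K η : (𝓞 K)ˣ) : 𝓞 K) = sg (η : 𝓞 K) := rfl
    rw [← h1, ← Units.val_mul, inv_mul_cancel_right]

end

/-- SR -/
theorem pf_SR (hBG : T_BG) (hCR : T_CR) : T_SR := by
  classical
  intro K _ _ _
  obtain ⟨C, hC1, hC⟩ := hBG K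
  obtain ⟨G, hG0, hG⟩ := hCR K
  obtain ⟨M, hM⟩ : ∃ M : ℝ, M = 1 + ∑ g ∈ G, nm g := ⟨_, rfl⟩
  have hM1 : 1 ≤ M := by
    have : 0 ≤ ∑ g ∈ G, nm g := Finset.sum_nonneg fun g _ => by
      unfold nm
      exact Nat.cast_nonneg _
    linarith
  have hMg : ∀ g ∈ G, nm g ≤ M := by
    intro g hg
    have := Finset.single_le_sum (f := fun g => nm g) (fun g _ => by
      unfold nm
      exact Nat.cast_nonneg _) hg
    linarith
  have hC0 : 0 < C := by linarith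
  have hK0 : 0 < (2 * C ^ 2) ^ Module.finrank ℚ K * M ^ 2 := by positivity
  refine ⟨1 / ((2 * C ^ 2) ^ Module.finrank ℚ K * M ^ 2), by positivity, ?_⟩
  rintro q hq d hd I J hI hJ hIq hJq ⟨a', b', ha0, hb0, haq, hbq, habd, hab⟩ hlt
  obtain ⟨g, hg, α0, hα0, hgI⟩ := hG I hI
  obtain ⟨β0, hβ0, hβ, hgJ⟩ := gens g I J a' b' α0 ha0 hb0 hα0 hab hgI
  obtain ⟨u, hu⟩ := balanced hC α0 hα0
  obtain ⟨w, hw⟩ := balanced hC β0 hβ0
  obtain ⟨α, hα⟩ : ∃ α : 𝓞 K, α = (u : 𝓞 K) * α0 := ⟨_, rfl⟩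
  obtain ⟨β, hβdef⟩ : ∃ β : 𝓞 K, β = (w : 𝓞 K) * β0 := ⟨_, rfl⟩
  obtain ⟨η, hη⟩ : ∃ η : (𝓞 K)ˣ, η = u * w⁻¹ := ⟨_, rfl⟩
  rw [← hα] at hu
  rw [← hβdef] at hw
  have hrel : a' * α = (η : 𝓞 K) * (b' * β) := by
    rw [hα, hβdef, hη, Units.val_mul]
    have h3 : ((w⁻¹ : (𝓞 K)ˣ) : 𝓞 K) * (w : 𝓞 K) = 1 := Units.inv_mul w
    linear_combination (u : 𝓞 K) * (-hβ) - (u : 𝓞 K) * b' * β0 * h3
  have hα_ne : α ≠ 0 := hα ▸ mul_ne_zero u.ne_zero hα0
  have hβ_ne : β ≠ 0 := hβdef ▸ mul_ne_zero w.ne_zero hβ0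
  have hcong : α - (η : 𝓞 K) * β ∈ d := cong q d hd a' b' α β η haq habd hrel
  obtain ⟨ζ, hζv, hζη⟩ := root η
  obtain ⟨x, hx⟩ : ∃ x : 𝓞 K, x = α * sg β - ζ * (sg α * β) := ⟨_, rfl⟩
  have hxd := mem_x d α β η ζ x hζη hcong hx
  have hx0 : x = 0 := by
    by_contra hne
    have hle : nm (d ⊔ d.map (sg : 𝓞 K ≃+* 𝓞 K)) ≤ nm (Ideal.span {x}) :=
      nm_le_of_le ((Ideal.span_singleton_le_iff_mem _).2 hxd)
        (by rwa [Ne, Ideal.span_singleton_eq_bot])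
    have hNx := size_x C hC1 α0 β0 α β x ζ hα0 hβ0 hζv hu hw hx
    have h3 := nm_sup q hq d hd
    rw [← hgI, ← hgJ, nm_mul, nm_mul] at hNx
    have hqn : (0 : ℝ) < (q : ℝ) ^ Module.finrank ℚ K := pow_pos (by exact_mod_cast hq.pos) _
    have hgp : 0 < nm g := nm_pos (hG0 g hg)
    have h4 : nm g ^ 2 ≤ M ^ 2 := pow_le_pow_left₀ hgp.le (hMg g hg) 2
    have hIp : 0 < nm I := nm_pos hI
    have hJp : 0 < nm J := nm_pos hJ
    have h5 : nm d ^ 2 ≤ ((2 * C ^ 2) ^ Module.finrank ℚ K * M ^ 2) *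
        (nm I * nm J * (q : ℝ) ^ Module.finrank ℚ K) := by
      calc nm d ^ 2 ≤ nm (d ⊔ d.map (sg : 𝓞 K ≃+* 𝓞 K)) * (q : ℝ) ^ Module.finrank ℚ K := h3
        _ ≤ ((2 * C ^ 2) ^ Module.finrank ℚ K * (nm g * nm I * (nm g * nm J))) *
            (q : ℝ) ^ Module.finrank ℚ K :=
          mul_le_mul_of_nonneg_right (hle.trans hNx) hqn.le
        _ = ((2 * C ^ 2) ^ Module.finrank ℚ K * (nm I * nm J *
            (q : ℝ) ^ Module.finrank ℚ K)) * nm g ^ 2 := by ring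
        _ ≤ ((2 * C ^ 2) ^ Module.finrank ℚ K * (nm I * nm J *
            (q : ℝ) ^ Module.finrank ℚ K)) * M ^ 2 :=
          mul_le_mul_of_nonneg_left h4 (by positivity)
        _ = _ := by ring
    have h6 : ((2 * C ^ 2) ^ Module.finrank ℚ K * M ^ 2) *
        (nm I * nm J * (q : ℝ) ^ Module.finrank ℚ K) < nm d ^ 2 := by
      have h7 := mul_lt_mul_of_pos_left hlt hK0
      have h8 : ((2 * C ^ 2) ^ Module.finrank ℚ K * M ^ 2) *
          (1 / ((2 * C ^ 2) ^ Module.finrank ℚ K * M ^ 2) * nm d ^ 2) = nm d ^ 2 := by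
        field_simp
      rwa [h8] at h7
    exact absurd h5 (not_le.2 h6)
  have hfix := fix a' b' α β η ζ η.ne_zero hα_ne hβ_ne hζη hrel (by
    rw [hx0] at hx
    exact sub_eq_zero.1 hx.symm)
  have hreal : ∀ y : 𝓞 K, sg y = y → ∃ t : 𝓞 (Kp K), algebraMap (𝓞 (Kp K)) (𝓞 K) t = y := by
    intro y hy
    exact (IsCMField.ringOfIntegersComplexConj_eq_self_iff K y).1 hy
  obtain ⟨a, ha⟩ := hreal (b' * sg a') (by rw [map_mul, sg_sg, mul_comm, hfix])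
  obtain ⟨b, hb⟩ := hreal (a' * sg a') (by rw [map_mul, sg_sg, mul_comm])
  refine ⟨a, b, ?_, ?_, ?_, ?_, ?_, ?_⟩
  · rintro rfl
    rw [map_zero] at ha
    exact mul_ne_zero hb0 (sg_ne ha0) ha.symm
  · rintro rfl
    rw [map_zero] at hb
    exact mul_ne_zero ha0 (sg_ne ha0) hb.symm
  · rw [ha]
    exact sup_q_mul q _ _ hbq (sup_q_sg q _ haq)
  · rw [hb]
    exact sup_q_mul q _ _ haq (sup_q_sg q _ haq)
  · rw [ha, hb, ← sub_mul, ← neg_sub, neg_mul]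
    exact d.neg_mem (d.mul_mem_right _ habd)
  · rw [ha, hb, ← Ideal.span_singleton_mul_span_singleton,
      ← Ideal.span_singleton_mul_span_singleton, mul_right_comm, hab, mul_right_comm]

end Pool.Agent.H97.CV
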