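import Pool.Agent.H37.CV.Targets

/-!
# Module UQ of cmv_modules
-/

set_option autoImplicit false

namespace Pool.Agent.H97.CV

open NumberField NumberField.InfinitePlace
open Pool.Agent.H37.CV

section

variable {L : Type} [Field L] [NumberField L]

/-- norms modulo `q` -/
theorem norm_mod (q : ℕ) (x : 𝓞 L) (a : ℤ) (h : x - (a : 𝓞 L) ∈ qi L q) :
    ((Algebra.norm ℤ x : ℤ) : ZMod q) = (a : ZMod q) ^ Module.finrank ℤ (𝓞 L) := by
  classical
  obtain ⟨z, hz⟩ := Ideal.mem_span_singleton'.1 h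
  have hx : x = algebraMap ℤ (𝓞 L) a + (q : ℤ) • z := by
    have h1 : x = (a : 𝓞 L) + z * (q : 𝓞 L) := by rw [hz]; ring
    rw [h1, zsmul_eq_mul, mul_comm z]
    push_cast
    rfl
  let b := RingOfIntegers.basis L
  rw [Algebra.norm_eq_matrix_det b]
  change (Int.castRingHom (ZMod q)) (Algebra.leftMulMatrix b x).det = _
  rw [RingHom.map_det]
  have h2 : (Int.castRingHom (ZMod q)).mapMatrix (Algebra.leftMulMatrix b x) =
      (a : ZMod q) • (1 : Matrix _ _ (ZMod q)) := by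
    rw [hx, map_add, map_zsmul, AlgHom.commutes, Algebra.algebraMap_eq_smul_one]
    ext i j
    rw [RingHom.mapMatrix_apply, Matrix.map_apply, Matrix.add_apply, Matrix.smul_apply,
      Matrix.smul_apply, Matrix.smul_apply, Int.coe_castRingHom]
    simp only [smul_eq_mul, Int.cast_add, Int.cast_mul, Int.cast_natCast, CharP.cast_eq_zero,
      zero_mul, add_zero]
    congr 1
    rw [Matrix.one_apply, Matrix.one_apply]
    split_ifs <;> simp
  rw [h2, Matrix.det_smul, Matrix.det_one, mul_one, Module.finrank_eq_card_basis b]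

theorem norm_unit_sq (u : (𝓞 L)ˣ) : (Algebra.norm ℤ (u : 𝓞 L)) ^ 2 = 1 := by
  have h : IsUnit (Algebra.norm ℤ (u : 𝓞 L)) := u.isUnit.map (Algebra.norm ℤ)
  rcases Int.isUnit_iff.1 h with h | h <;> rw [h] <;> norm_num

theorem pow_eq_of_rel (q : ℕ) (u : (𝓞 L)ˣ) (a b : ℕ)
    (h : (u : 𝓞 L) * (a : 𝓞 L) - (b : 𝓞 L) ∈ qi L q) :
    ((a : ZMod q)) ^ (2 * Module.finrank ℤ (𝓞 L)) = (b : ZMod q) ^ (2 * Module.finrank ℤ (𝓞 L)) := by
  have h1 := norm_mod q ((u : 𝓞 L) * (a : 𝓞 L)) (b : ℤ) (by push_cast; exact h)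
  rw [map_mul, Int.cast_mul] at h1
  have h2 : Algebra.norm ℤ (a : 𝓞 L) = (a : ℤ) ^ Module.finrank ℤ (𝓞 L) := by
    exact Algebra.norm_natCast ℤ a
  rw [h2] at h1
  have h3 : (((Algebra.norm ℤ (u : 𝓞 L)) ^ 2 : ℤ) : ZMod q) = 1 := by
    rw [norm_unit_sq, Int.cast_one]
  have h4 := congrArg (fun y => y ^ 2) h1
  simp only [mul_pow] at h4
  rw [← Int.cast_pow, h3, one_mul] at h4
  rw [mul_comm 2, pow_mul, pow_mul]
  push_cast at h4
  exact h4

/-- the number of classes of units modulo `q` -/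
theorem uc_le (q : ℕ) (hq : q.Prime) :
    uc (qi L q) * (q - 1) ≤ 2 * Module.finrank ℤ (𝓞 L) * q ^ Module.finrank ℤ (𝓞 L) := by
  classical
  set r := Module.finrank ℤ (𝓞 L) with hr
  have : Fact q.Prime := ⟨hq⟩
  have hr0 : 0 < r := Module.finrank_pos
  have hqi : qi L q ≠ ⊥ := by
    unfold qi
    rw [Ne, Ideal.span_singleton_eq_bot]
    exact_mod_cast hq.ne_zero
  have hfin : Finite (𝓞 L ⧸ qi L q) := Ideal.finiteQuotientOfFreeOfNeBot _ hqi
  have hFt : Fintype (𝓞 L ⧸ qi L q) := Fintype.ofFinite _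
  have hcard : Fintype.card (𝓞 L ⧸ qi L q) = q ^ r := by
    rw [← Nat.card_eq_fintype_card, ← Submodule.cardQuot_apply, ← Ideal.absNorm_apply]
    exact Ideal.absNorm_span_natCast q
  set X : Finset (𝓞 L ⧸ qi L q) :=
    (Set.range fun u : (𝓞 L)ˣ => Ideal.Quotient.mk (qi L q) (u : 𝓞 L)).toFinset with hX
  have huc : uc (qi L q) = X.card := by
    unfold uc
    rw [Set.ncard_eq_toFinset_card']
  have hunit : ∀ a : ℕ, a ∈ Finset.Icc 1 (q - 1) → IsUnit ((a : ℕ) : 𝓞 L ⧸ qi L q) := by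
    intro a ha
    rw [Finset.mem_Icc] at ha
    have hc : Nat.Coprime a q := by
      rw [Nat.coprime_comm]
      exact (Nat.Prime.coprime_iff_not_dvd hq).2 fun h => by
        have := Nat.le_of_dvd (by omega) h
        omega
    have hz : ((q : ℕ) : 𝓞 L ⧸ qi L q) = 0 := by
      rw [← map_natCast (Ideal.Quotient.mk (qi L q)), Ideal.Quotient.eq_zero_iff_mem]
      exact Ideal.mem_span_singleton_self _
    have hb := Nat.gcd_eq_gcd_ab a q
    rw [hc] at hb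
    have h1 : ((a : ℕ) : 𝓞 L ⧸ qi L q) * ((Nat.gcdA a q : ℤ) : 𝓞 L ⧸ qi L q) = 1 := by
      have h2 := congrArg (Int.cast : ℤ → 𝓞 L ⧸ qi L q) hb
      push_cast at h2
      rw [hz, zero_mul, add_zero] at h2
      exact h2.symm
    exact IsUnit.of_mul_eq_one _ h1
  let f : (𝓞 L ⧸ qi L q) × ℕ → 𝓞 L ⧸ qi L q := fun p => p.1 * (p.2 : 𝓞 L ⧸ qi L q)
  have hfib : ∀ g ∈ (X ×ˢ Finset.Icc 1 (q - 1)).image f,
      ((X ×ˢ Finset.Icc 1 (q - 1)).filter fun p => f p = g).card ≤ 2 * r := by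
    intro g hg
    obtain ⟨p0, hp0, hg0⟩ := Finset.mem_image.1 hg
    set β : ZMod q := (p0.2 : ZMod q) ^ (2 * r) with hβ
    have hmaps : Set.MapsTo (fun p : (𝓞 L ⧸ qi L q) × ℕ => (p.2 : ZMod q))
        ((X ×ˢ Finset.Icc 1 (q - 1)).filter fun p => f p = g)
        ((Polynomial.nthRoots (2 * r) β).toFinset : Finset (ZMod q)) := by
      intro p hp
      rw [Finset.mem_coe, Finset.mem_filter] at hp
      obtain ⟨hp1, hp2⟩ := hp
      obtain ⟨hpX, -⟩ := Finset.mem_product.1 hp1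
      obtain ⟨hp0X, -⟩ := Finset.mem_product.1 hp0
      rw [hX, Set.mem_toFinset] at hpX hp0X
      obtain ⟨u, hu⟩ := hpX
      obtain ⟨u0, hu0⟩ := hp0X
      rw [Finset.mem_coe, Multiset.mem_toFinset, Polynomial.mem_nthRoots (by omega)]
      have h1 : f p = f p0 := hp2.trans hg0.symm
      have h2 : Ideal.Quotient.mk (qi L q) ((u : 𝓞 L) * (p.2 : 𝓞 L)) =
          Ideal.Quotient.mk (qi L q) ((u0 : 𝓞 L) * (p0.2 : 𝓞 L)) := by
        rw [map_mul, map_mul, map_natCast, map_natCast]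
        simp only at hu hu0
        rw [hu, hu0]
        exact h1
      rw [Ideal.Quotient.eq] at h2
      have h3 : ((u0⁻¹ * u : (𝓞 L)ˣ) : 𝓞 L) * (p.2 : 𝓞 L) - (p0.2 : 𝓞 L) ∈ qi L q := by
        have h4 := Ideal.mul_mem_left (qi L q) ((u0⁻¹ : (𝓞 L)ˣ) : 𝓞 L) h2
        have h5 : ((u0⁻¹ : (𝓞 L)ˣ) : 𝓞 L) * ((u : 𝓞 L) * (p.2 : 𝓞 L) -
            (u0 : 𝓞 L) * (p0.2 : 𝓞 L)) =
            ((u0⁻¹ * u : (𝓞 L)ˣ) : 𝓞 L) * (p.2 : 𝓞 L) - (p0.2 : 𝓞 L) := by
          rw [Units.val_mul, mul_sub, ← mul_assoc, ← mul_assoc, Units.inv_mul, one_mul]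
        rwa [h5] at h4
      exact pow_eq_of_rel q _ p.2 p0.2 h3
    have hinj : Set.InjOn (fun p : (𝓞 L ⧸ qi L q) × ℕ => (p.2 : ZMod q))
        ((X ×ˢ Finset.Icc 1 (q - 1)).filter fun p => f p = g) := by
      intro p hp p' hp' hpp
      rw [Finset.mem_coe, Finset.mem_filter] at hp hp'
      obtain ⟨-, hpI⟩ := Finset.mem_product.1 hp.1
      obtain ⟨-, hpI'⟩ := Finset.mem_product.1 hp'.1
      have h1 : p.2 = p'.2 := by
        have h2 := (ZMod.natCast_eq_natCast_iff' _ _ _).1 hpp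
        rw [Finset.mem_Icc] at hpI hpI'
        rwa [Nat.mod_eq_of_lt (by omega), Nat.mod_eq_of_lt (by omega)] at h2
      have h2 : p.1 * (p.2 : 𝓞 L ⧸ qi L q) = p'.1 * (p.2 : 𝓞 L ⧸ qi L q) := by
        have h3 : f p = f p' := hp.2.trans hp'.2.symm
        change p.1 * (p.2 : 𝓞 L ⧸ qi L q) = p'.1 * (p'.2 : 𝓞 L ⧸ qi L q) at h3
        rw [h3, h1]
      exact Prod.ext ((hunit p.2 hpI).mul_right_cancel h2) h1
    calc _ ≤ ((Polynomial.nthRoots (2 * r) β).toFinset).card :=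
          Finset.card_le_card_of_injOn _ hmaps hinj
      _ ≤ Multiset.card (Polynomial.nthRoots (2 * r) β) := Multiset.toFinset_card_le _
      _ ≤ 2 * r := Polynomial.card_nthRoots _ _
  have h1 := Finset.card_le_mul_card_image (f := f) (X ×ˢ Finset.Icc 1 (q - 1)) (2 * r) hfib
  rw [Finset.card_product, Nat.card_Icc, Nat.add_sub_cancel, ← huc] at h1
  refine h1.trans (Nat.mul_le_mul_left _ ?_)
  rw [← hcard]
  exact Finset.card_le_univ _

end

/-- UQ -/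
theorem pf_UQ : T_UQ := by
  classical
  intro K _ _ _
  set r := Module.finrank ℤ (𝓞 (Kp K)) with hr
  have hrn : (Module.finrank ℚ K : ℝ) / 2 = r := by
    have h1 := Module.finrank_mul_finrank ℚ (Kp K) K
    have h2 : Module.finrank (Kp K) K = 2 := Algebra.IsQuadraticExtension.finrank_eq_two _ _
    have h3 : Module.finrank ℚ (Kp K) = r := (RingOfIntegers.rank (Kp K)).symm
    rw [h2, h3] at h1
    rw [← h1]
    push_cast
    ring
  have hr0 : 0 < r := Module.finrank_pos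
  refine ⟨Nat.card (Units.torsion K) * (4 * r), fun q hq => ?_⟩
  have hqi : qi K q ≠ ⊥ := by
    unfold qi
    rw [Ne, Ideal.span_singleton_eq_bot]
    exact_mod_cast hq.ne_zero
  have hfin : Finite (𝓞 K ⧸ qi K q) := Ideal.finiteQuotientOfFreeOfNeBot _ hqi
  have hqi' : qi (Kp K) q ≠ ⊥ := by
    unfold qi
    rw [Ne, Ideal.span_singleton_eq_bot]
    exact_mod_cast hq.ne_zero
  have hfin' : Finite (𝓞 (Kp K) ⧸ qi (Kp K) q) := Ideal.finiteQuotientOfFreeOfNeBot _ hqi'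
  have hle : qi (Kp K) q ≤ (qi K q).comap (algebraMap (𝓞 (Kp K)) (𝓞 K)) := by
    unfold qi
    rw [Ideal.span_singleton_le_iff_mem, Ideal.mem_comap, map_natCast]
    exact Ideal.mem_span_singleton_self _
  -- covering
  let g : Units.torsion K → (𝓞 K)ˣ := fun ζ =>
    if h : ∃ u : (𝓞 K)ˣ, IsCMField.unitsMulComplexConjInv K u = ζ then h.choose else 1
  let S : Set (𝓞 (Kp K) ⧸ qi (Kp K) q) :=
    Set.range fun u : (𝓞 (Kp K))ˣ => Ideal.Quotient.mk (qi (Kp K) q) (u : 𝓞 (Kp K))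
  let F : Units.torsion K × S → 𝓞 K ⧸ qi K q := fun p =>
    Ideal.Quotient.mk (qi K q) (g p.1 : 𝓞 K) *
      Ideal.quotientMap (qi K q) (algebraMap (𝓞 (Kp K)) (𝓞 K)) hle p.2.1
  have hsub : (Set.range fun u : (𝓞 K)ˣ => Ideal.Quotient.mk (qi K q) (u : 𝓞 K)) ⊆
      Set.range F := by
    rintro _ ⟨u, rfl⟩
    set ζ := IsCMField.unitsMulComplexConjInv K u with hζ
    have h1 : ∃ u' : (𝓞 K)ˣ, IsCMField.unitsMulComplexConjInv K u' = ζ := ⟨u, rfl⟩
    have hg : g ζ = h1.choose := dif_pos h1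
    have h2 : (g ζ)⁻¹ * u ∈ IsCMField.realUnits K := by
      rw [← IsCMField.unitsMulComplexConjInv_ker, MonoidHom.mem_ker, map_mul, map_inv, hg,
        h1.choose_spec, ← hζ, inv_mul_cancel]
    rw [IsCMField.mem_realUnits_iff] at h2
    obtain ⟨v, hv⟩ := h2
    refine ⟨(ζ, ⟨_, ⟨v, rfl⟩⟩), ?_⟩
    change Ideal.Quotient.mk (qi K q) (g ζ : 𝓞 K) *
      Ideal.quotientMap (qi K q) (algebraMap (𝓞 (Kp K)) (𝓞 K)) hle
        (Ideal.Quotient.mk (qi (Kp K) q) (v : 𝓞 (Kp K))) = _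
    rw [Ideal.quotientMap_mk, ← map_mul]
    congr 1
    have h3 : (algebraMap (𝓞 (Kp K)) (𝓞 K)) (v : 𝓞 (Kp K)) = (((g ζ)⁻¹ * u : (𝓞 K)ˣ) : 𝓞 K) := hv
    rw [h3, Units.val_mul, ← mul_assoc, Units.mul_inv, one_mul]
  have h1 : uc (qi K q) ≤ Nat.card (Units.torsion K) * uc (qi (Kp K) q) := by
    have h2 : (Set.range fun u : (𝓞 K)ˣ => Ideal.Quotient.mk (qi K q) (u : 𝓞 K)).ncard ≤
        (Set.range F).ncard := Set.ncard_le_ncard hsub (Set.toFinite _)
    have h3 : (Set.range F).ncard ≤ Nat.card (Units.torsion K × S) := by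
      rw [← Set.image_univ, ← Set.ncard_univ]
      exact Set.ncard_image_le
    rw [Nat.card_prod, Nat.card_coe_set_eq] at h3
    exact h2.trans h3
  have h2 := uc_le (L := Kp K) q hq
  have hq2 : 2 ≤ q := hq.two_le
  have h3 : (uc (qi (Kp K) q) : ℝ) ≤ 4 * r * (q : ℝ) ^ ((r : ℝ) - 1) := by
    have h4 : (uc (qi (Kp K) q) : ℝ) * ((q : ℝ) - 1) ≤ 2 * r * (q : ℝ) ^ r := by
      have h5 : ((uc (qi (Kp K) q) * (q - 1) : ℕ) : ℝ) ≤
          ((2 * r * q ^ r : ℕ) : ℝ) := by exact_mod_cast h2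
      push_cast [Nat.cast_sub hq.one_le] at h5
      exact h5
    have hq0 : (0 : ℝ) < q := by exact_mod_cast hq.pos
    have hq2' : (2 : ℝ) ≤ q := by exact_mod_cast hq2
    have h5 : (q : ℝ) ^ ((r : ℝ) - 1) * q = (q : ℝ) ^ r := by
      rw [Real.rpow_sub_one hq0.ne', Real.rpow_natCast]
      field_simp
    have h6 : (uc (qi (Kp K) q) : ℝ) * (q / 2) ≤ 2 * r * ((q : ℝ) ^ ((r : ℝ) - 1) * q) := by
      rw [h5]
      refine le_trans (mul_le_mul_of_nonneg_left ?_ (Nat.cast_nonneg _)) h4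
      linarith
    have h7 : (uc (qi (Kp K) q) : ℝ) * (q / 2) ≤ (4 * r * (q : ℝ) ^ ((r : ℝ) - 1)) * (q / 2) := by
      linarith
    exact le_of_mul_le_mul_right h7 (by positivity)
  rw [hrn]
  have h4 : (uc (qi K q) : ℝ) ≤ Nat.card (Units.torsion K) * uc (qi (Kp K) q) := by
    exact_mod_cast h1
  refine h4.trans ?_
  rw [mul_assoc]
  exact mul_le_mul_of_nonneg_left h3 (Nat.cast_nonneg _)

end Pool.Agent.H97.CV
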